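import Pool.Agent.helper60.EPT.Spec

/-!
# eth:ANY (project EPT, MP_2b48c2_lc): bounded quantifiers over a list, membership
-/

set_option autoImplicit false

namespace Pool.Agent.EPT

open D

theorem ANY_ofList (l : List D) : ofList l = nil ↔ l = [] := by
  cases l with
  | nil => simp
  | cons a l => simp

theorem ANY_ex (hC : Cal) (hFLT : FLT_stmt) (f l e : D → D) (hf : FP f) (hl : FP l) (he : FP e) :
    FP fun x => tv (∃ a ∈ (l x).toList, f (cons a (e x)) ≠ nil) := by
  have h1 := hC.not _ (hC.not _ (hFLT f l e hf hl he))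
  have h2 : (fun x => tv (∃ a ∈ (l x).toList, f (cons a (e x)) ≠ nil)) = fun x =>
      tv (tv (ofList ((l x).toList.filter fun a => f (cons a (e x)) ≠ nil) = nil) = nil) := by
    funext x
    refine tv_congr _ _ ?_
    rw [tv_eq_nil, ANY_ofList, List.filter_eq_nil_iff]
    simp
  rw [h2]
  exact h1

theorem ANY (hC : Cal) (hFLT : FLT_stmt) : ANY_stmt := by
  refine ⟨fun f l e hf hl he => ⟨ANY_ex hC hFLT f l e hf hl he, ?_⟩, fun a l ha hl => ?_⟩
  · have h1 := hC.not _ (ANY_ex hC hFLT (fun y => tv (f y = nil)) l e (hC.not f hf) hl he)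
    have h2 : (fun x => tv (∀ a ∈ (l x).toList, f (cons a (e x)) ≠ nil)) = fun x =>
        tv (tv (∃ a ∈ (l x).toList, (fun y => tv (f y = nil)) (cons a (e x)) ≠ nil) = nil) := by
      funext x
      refine tv_congr _ _ ?_
      rw [tv_eq_nil]
      simp only [tv_ne_nil]
      push Not
      rfl
    rw [h2]
    exact h1
  · have h1 := ANY_ex hC hFLT (fun y => tv (y.fst = y.snd)) l a
      (hC.eq _ _ (hC.fst _ hC.id) (hC.snd _ hC.id)) hl ha
    have h2 : (fun x => tv (a x ∈ (l x).toList)) = fun x =>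
        tv (∃ b ∈ (l x).toList, (fun y : D => tv (y.fst = y.snd)) (cons b (a x)) ≠ nil) := by
      funext x
      refine tv_congr _ _ ?_
      simp only [tv_ne_nil, fst_cons, snd_cons]
      constructor
      · intro h
        exact ⟨_, h, rfl⟩
      · rintro ⟨b, hb, h⟩
        rw [← h]
        exact hb
    rw [h2]
    exact h1

end Pool.Agent.EPT
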