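import Pool.Agent.helper60.EPT.Spec

/-!
# eth:ARI (project EPT, MP_2b48c2_lc): the computation of the exponents
-/

set_option autoImplicit false

namespace Pool.Agent.EPT

open D

theorem ARI_log_sq (K : ℕ) (m : ℕ) (hm : m ≤ K ^ 2) : Nat.log 2 m ≤ 2 * Nat.log 2 K + 1 := by
  have h1 : K < 2 ^ (Nat.log 2 K + 1) := Nat.lt_pow_succ_log_self (by norm_num) K
  have h2 : m < 2 ^ (2 * Nat.log 2 K + 2) := by
    calc m ≤ K ^ 2 := hm
      _ < (2 ^ (Nat.log 2 K + 1)) ^ 2 := Nat.pow_lt_pow_left h1 (by norm_num)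
      _ = 2 ^ (2 * Nat.log 2 K + 2) := by rw [← pow_mul]; congr 1; ring
  have h3 := Nat.log_lt_of_lt_pow' (b := 2) (x := 2 * Nat.log 2 K + 2) (y := m) (by omega) h2
  omega

theorem ARI_pow (a : ℕ) : (2 * a + 1) ^ 2 ≤ 9 * 2 ^ a := by
  induction a with
  | zero => norm_num
  | succ a ih =>
    have h : a + 1 ≤ 2 ^ a := Nat.lt_two_pow_self
    rw [pow_succ 2 a]
    nlinarith

theorem ARI_key (A m k q : ℕ) (hm : m ≤ k ^ 2) (hq : q * Nat.log 2 q ≤ A * (k + 1)) :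
    (q + 1) * Nat.log 2 m ≤ (14 * A + 6) * (k + 1) := by
  obtain ⟨K, hK⟩ : ∃ K, K = k + 1 := ⟨_, rfl⟩
  rw [← hK] at hq ⊢
  have hK1 : 1 ≤ K := by omega
  have hmK : m ≤ K ^ 2 := hm.trans (Nat.pow_le_pow_left (by omega) 2)
  have hl := ARI_log_sq K m hmK
  rcases le_or_gt (q ^ 2) K with h | h
  · have h1 : (q + 1) ^ 2 ≤ 4 * K := by nlinarith [Nat.zero_le ((q - 1) ^ 2), sq_nonneg ((q : ℤ) - 1), mul_self_nonneg ((q : ℤ) - 1)]
    have h2 : (Nat.log 2 m) ^ 2 ≤ 9 * K := by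
      calc (Nat.log 2 m) ^ 2 ≤ (2 * Nat.log 2 K + 1) ^ 2 := Nat.pow_le_pow_left hl 2
        _ ≤ 9 * 2 ^ Nat.log 2 K := ARI_pow _
        _ ≤ 9 * K := Nat.mul_le_mul_left 9 (Nat.pow_log_le_self 2 (by omega))
    have h3 : ((q + 1) * Nat.log 2 m) ^ 2 ≤ (6 * K) ^ 2 := by
      rw [mul_pow]
      calc (q + 1) ^ 2 * (Nat.log 2 m) ^ 2 ≤ (4 * K) * (9 * K) := Nat.mul_le_mul h1 h2
        _ = (6 * K) ^ 2 := by ring
    have h4 : (q + 1) * Nat.log 2 m ≤ 6 * K := by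
      by_contra hc
      push Not at hc
      exact absurd h3 (not_le.mpr (Nat.pow_lt_pow_left hc (by norm_num)))
    calc (q + 1) * Nat.log 2 m ≤ 6 * K := h4
      _ ≤ (14 * A + 6) * K := Nat.mul_le_mul_right K (by omega)
  · have hq2 : 2 ≤ q := by
      by_contra hc
      have : q ≤ 1 := by omega
      have : q ^ 2 ≤ 1 ^ 2 := Nat.pow_le_pow_left this 2
      omega
    have h1 := ARI_log_sq q K h.le
    have h2 : 1 ≤ Nat.log 2 q := Nat.log_pos (by norm_num) hq2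
    calc (q + 1) * Nat.log 2 m ≤ (2 * q) * (7 * Nat.log 2 q) := Nat.mul_le_mul (by omega) (by omega)
      _ = 14 * (q * Nat.log 2 q) := by ring
      _ ≤ 14 * (A * K) := Nat.mul_le_mul_left 14 hq
      _ ≤ (14 * A + 6) * K := by nlinarith

theorem ARI : ARI_stmt := by
  intro A
  refine ⟨149 * A + 66, fun m k q hm hk hq => ?_⟩
  have hkey := ARI_key A m k q hm hq
  rcases Nat.eq_zero_or_pos (Nat.log 2 m) with hl | hl
  · have hm1 : m < 2 := by
      rcases Nat.log_eq_zero_iff.mp hl with h | h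
      · exact h
      · omega
    have hs : Nat.sqrt m ≤ 1 := by
      have : Nat.sqrt m ≤ Nat.sqrt 1 := Nat.sqrt_le_sqrt (by omega)
      simpa using this
    have hk2 : k ≤ 2 := by omega
    have hq1 : q ≤ 3 * A + 1 := by
      by_contra hc
      have h2 : 1 ≤ Nat.log 2 q := Nat.log_pos (by norm_num) (by omega)
      have h3 : q * 1 ≤ q * Nat.log 2 q := Nat.mul_le_mul_left q h2
      have h4 : A * (k + 1) ≤ A * 3 := Nat.mul_le_mul_left A (by omega)
      omega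
    rw [hl, Nat.div_zero, zero_add, mul_one]
    calc (k + 1) * (q + 1) ≤ 3 * (3 * A + 2) := Nat.mul_le_mul (by omega) (by omega)
      _ ≤ 149 * A + 66 := by omega
  · have hs : (k + 1) ^ 2 ≤ 2 * m + 8 := by
      have h1 : (k + 1) ^ 2 ≤ (Nat.sqrt m + 2) ^ 2 := Nat.pow_le_pow_left (by omega) 2
      have h2 : Nat.sqrt m * Nat.sqrt m ≤ m := Nat.sqrt_le m
      have h3 : (Nat.sqrt m + 2) ^ 2 ≤ 2 * (Nat.sqrt m * Nat.sqrt m) + 8 := by
        have := sq_nonneg ((Nat.sqrt m : ℤ) - 2)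
        zify
        nlinarith
      omega
    have hd : m < (m / Nat.log 2 m + 1) * Nat.log 2 m := by
      have := Nat.lt_mul_div_succ m hl
      rw [mul_comm] at this
      exact this
    obtain ⟨X, hX⟩ : ∃ X, X = m / Nat.log 2 m + 1 := ⟨_, rfl⟩
    rw [← hX] at hd ⊢
    have hX1 : 1 ≤ X := by rw [hX]; exact Nat.le_add_left 1 _
    have h5 : (k + 1) * (q + 1) * Nat.log 2 m ≤ (10 * (14 * A + 6) * X) * Nat.log 2 m := by
      calc (k + 1) * (q + 1) * Nat.log 2 m = (k + 1) * ((q + 1) * Nat.log 2 m) := by ring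
        _ ≤ (k + 1) * ((14 * A + 6) * (k + 1)) := Nat.mul_le_mul_left _ hkey
        _ = (14 * A + 6) * (k + 1) ^ 2 := by ring
        _ ≤ (14 * A + 6) * (2 * m + 8) := Nat.mul_le_mul_left _ hs
        _ ≤ (14 * A + 6) * (10 * (X * Nat.log 2 m)) := by
            refine Nat.mul_le_mul_left _ ?_
            have : 1 * 1 ≤ X * Nat.log 2 m := Nat.mul_le_mul hX1 hl
            omega
        _ = (10 * (14 * A + 6) * X) * Nat.log 2 m := by ring
    have h6 := Nat.le_of_mul_le_mul_right h5 hl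
    calc (k + 1) * (q + 1) ≤ 10 * (14 * A + 6) * X := h6
      _ ≤ (149 * A + 66) * X := Nat.mul_le_mul_right X (by omega)

end Pool.Agent.EPT
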